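import Pool.Agent.U753.MK.Mk2

/-!
# Local PEPS approximation from conditional entropies

Let `d ≥ 2` and let `R ⊂ ℤ²` be a finite region. For a site `x` of the `b × b` box let `P` be the set of
the sites of the box before `x` in the lexicographic order. For a vector `Ψ` on a torus the
conditional entropy at `x` is `S(P ∪ {x}) - S(P)`, the difference of the von Neumann entropies of the
reduced density matrices. (The sum over all `x` is the entropy of the box. When `x` is not at the end
of a column, `P` and `P ∪ {x}` have boundaries of equal length and the same number of corners: an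
area law `S(A) = α |∂A| + β #corners - γ` up to exponentially small corrections, as it is expected
for all gapped phases, topological and chiral ones included, makes the conditional entropy
exponentially small in `b`. It vanishes for instance for the fixed points of the entanglement
renormalisation.)

(1) There is `C = C(d, R)` such that for all `0 < ε ≤ 1`, `b ≥ 1`, `x` and every translation invariant
unit vector `Ψ` on a torus of side `L ≥ C (b / ε)³` with conditional entropy at most `κ ≥ 0` at `x` ONE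
translation invariant tensor of bond dimension at most `exp (C b²⁶ (κ / ε + log (2 / ε)))` has nonzero
PEPS vectors on all tori of side at least `C (b / ε)¹²` and reproduces there the reduced density matrix
of `Ψ` on `R` up to `ε` in trace norm. (The known bounds for all vectors, `exp (C / ε)`, and in terms
of the entropy of the box, are exponential in a power of `1 / ε` for states with an area law.)

Let `Ψ_L` be translation invariant unit vectors (for instance unique gapped ground states of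
translation invariant Hamiltonians) with convergent reduced density matrices on `R`.

(2) If the conditional entropies are at most `a e^(-c b)` (for every `b`, at some `x` in the `b × b` box,
for all large `L`), then `g(ε, R) = exp (C log (2 / ε)²⁷)` suffices in Q1.

(3) If for ONE box and one `x` in it the conditional entropies tend to `0` (at most; `limsup ≤ 0`) as
`L → ∞`, then Q2 has a positive answer: `g(ε, R) = (2 / ε)^C`.

(4) If the conditional entropies are at most `a b^(-s)`, then `g(ε, R) = exp (C ε^(-26/s) log (2 / ε))`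
suffices; so conditional entropies smaller than every power of `1 / b` give `exp (ε^(-o(1)))`.

Proof. Let `ρ_A` be the reduced density matrices of `Ψ` (regularised). The state is compared with the
Gibbs state of the interaction `h = log ρ_P - log ρ_(P ∪ x)` of range `b`. The mean energy of `Ψ` is
the conditional entropy. The free energy of `h` on the torus is at most a boundary term: for the
Gibbs state `σ`, the chain rule along the lexicographic order and strong subadditivity give
`S(σ) ≤ ∑_x S_σ(x | P_x)`, and by monotonicity of the relative entropy `S_σ(x | P_x)` is at most the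
`σ`-energy of `h_x`. So the relative entropy of `Ψ` with respect to the Gibbs state is at most `κ` per
site. By duality (Gibbs variational principle) the marginal of `Ψ` on `R` is reached by Gibbs states
of `h + t B`, `t = O(κ / ε)`, with bond dimension controlled by the cluster expansion, whose dependence
on the range and the norm of the interaction is made explicit: `exp (C b²⁴ (J + t + log m))`.

Co-authors (Lean proofs of the parts): helper460 (monotonicity of the relative entropy), helper913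
(conditional expectations), helper358 (chain rule), helper337, helper603 (torus), helper261 (entropies)
and those of ThermalPEPS, EntropyPEPS, FreeEnergyPEPS.
-/

set_option autoImplicit false

open scoped BigOperators ComplexConjugate Classical

noncomputable section

namespace Pool.Agent.Results.MP_0f69bf_mp.ConditionalEntropy

/-- Sites of the `L × L` torus. -/
abbrev Site (L : ℕ) := ZMod L × ZMod L

/-- Configurations (basis states) of the torus with local dimension `d`; vectors are functions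
`Conf d L → ℂ`. -/
abbrev Conf (d L : ℕ) := Site L → Fin d

/-- Configurations of a `q × q` box. -/
abbrev BConf (d q : ℕ) := Fin q × Fin q → Fin d

/-- Squared norm of a vector. -/
def nrm {S : Type} [Fintype S] (f : S → ℂ) : ℝ := ∑ s, ‖f s‖ ^ 2

/-- The matrix `B` has operator norm at most `1`. -/
def Contr {S : Type} [Fintype S] (B : S → S → ℂ) : Prop :=
  ∀ f : S → ℂ, nrm (fun σ => ∑ τ, B σ τ * f τ) ≤ nrm f

/-- The restriction of `s` to the `q × q` box with corner `v`. -/
def box {d L : ℕ} (q : ℕ) (s : Conf d L) (v : Site L) : BConf d q :=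
  fun p => s (v.1 + ((p.1 : ℕ) : ZMod L), v.2 + ((p.2 : ℕ) : ZMod L))

/-- The configuration `s` with its content on the `q × q` box with corner `v` replaced by `τ`. -/
def put {d L q : ℕ} (s : Conf d L) (v : Site L) (τ : BConf d q) : Conf d L :=
  fun w => if h : (w.1 - v.1).val < q ∧ (w.2 - v.2).val < q then
    τ (⟨(w.1 - v.1).val, h.1⟩, ⟨(w.2 - v.2).val, h.2⟩) else s w

/-- The restriction of `s` to the translate by `v` of the region `R ⊂ ℤ²`. -/
def res {d L : ℕ} (R : Finset (ℤ × ℤ)) (s : Conf d L) (v : Site L) : R → Fin d :=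
  fun p => s (v.1 + ((p : ℤ × ℤ).1 : ZMod L), v.2 + ((p : ℤ × ℤ).2 : ZMod L))

/-- `⟨Ψ, B_v Ψ⟩`, the matrix `B` acting on the translate by `v` of the region `R`: the sum of
`conj (Ψ s) * B (s on v + R) (s' on v + R) * Ψ s'` over all pairs `s`, `s'` which agree off
`v + R`. -/
def expecR {d L : ℕ} [NeZero L] (R : Finset (ℤ × ℤ)) (Ψ : Conf d L → ℂ) (v : Site L)
    (B : (R → Fin d) → (R → Fin d) → ℂ) : ℂ :=
  ∑ s : Conf d L, ∑ s' : Conf d L,
    if (∀ w : Site L, (∀ p ∈ R, w ≠ (v.1 + (p.1 : ZMod L), v.2 + (p.2 : ZMod L))) → s w = s' w)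
    then conj (Ψ s) * B (res R s v) (res R s' v) * Ψ s' else 0

/-- The reduced density matrices on `R` of the normalised vectors `Ψ`, `Ψ'` (on two possibly
different tori, at any positions) have trace distance at most `ε`: the expectations of all
matrices of norm at most `1` differ by at most `ε`. -/
def Close {d L L' : ℕ} [NeZero L] [NeZero L'] (R : Finset (ℤ × ℤ)) (Ψ : Conf d L → ℂ)
    (Ψ' : Conf d L' → ℂ) (ε : ℝ) : Prop :=
  ∀ (u : Site L) (v : Site L') (B : (R → Fin d) → (R → Fin d) → ℂ), Contr B →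
    ‖expecR R Ψ u B / (nrm Ψ : ℂ) - expecR R Ψ' v B / (nrm Ψ' : ℂ)‖ ≤ ε

/-- A PEPS tensor with physical dimension `d` and bond dimension `D`; indices: physical, left,
right, down, up. -/
abbrev Tensor (d D : ℕ) := Fin d → Fin D → Fin D → Fin D → Fin D → ℂ

/-- The translation invariant PEPS vector of the tensor `A` on the `L × L` torus. -/
def peps {d D : ℕ} (A : Tensor d D) (L : ℕ) [NeZero L] : Conf d L → ℂ :=
  fun s => ∑ hor : Site L → Fin D, ∑ ver : Site L → Fin D,
    ∏ v : Site L, A (s v) (hor (v.1 - 1, v.2)) (hor v) (ver (v.1, v.2 - 1)) (ver v)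

/-- The vector `Ψ` is translation invariant up to scalars. -/
def TransInv {d L : ℕ} (Ψ : Conf d L → ℂ) : Prop :=
  ∀ a : Site L, ∃ c : ℂ, ∀ s : Conf d L, Ψ (fun w => s (w + a)) = c * Ψ s

/-- The reduced density matrix of the vector `Ψ` on the `b × b` box with corner `0`: its entry
`(σ, τ)` is `∑_s conj (Ψ s) Ψ (s with σ put on the box)`, the sum over the `s` that are `τ` on the
box. -/
def rdm {d L : ℕ} [NeZero L] (Ψ : Conf d L → ℂ) (b : ℕ) : Matrix (BConf d b) (BConf d b) ℂ :=
  Matrix.of fun σ τ => ∑ s : Conf d L, if box b s 0 = τ then conj (Ψ s) * Ψ (put s 0 σ) else 0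

/-- `s` on `A`, `w` on the complement of `A`. -/
def glu {V : Type} [DecidableEq V] {d : ℕ} (A : Finset V) (s : {v // v ∈ A} → Fin d)
    (w : {v // v ∉ A} → Fin d) : V → Fin d :=
  fun v => if h : v ∈ A then s ⟨v, h⟩ else w ⟨v, h⟩

/-- The partial trace over the sites not in `A`: the reduced matrix on `A`. -/
def ptr {V : Type} [Fintype V] [DecidableEq V] {d : ℕ} (A : Finset V)
    (ρ : Matrix (V → Fin d) (V → Fin d) ℂ) :
    Matrix ({v // v ∈ A} → Fin d) ({v // v ∈ A} → Fin d) ℂ :=
  Matrix.of fun s t => ∑ w : {v // v ∉ A} → Fin d, ρ (glu A s w) (glu A t w)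

/-- The von Neumann entropy `-Tr (ρ log ρ)` of a Hermitian matrix `ρ` (natural logarithm), the sum of
`-p log p` over its eigenvalues `p`. -/
def vnE {S : Type} [Fintype S] [DecidableEq S] (ρ : Matrix S S ℂ) : ℝ :=
  if h : ρ.IsHermitian then ∑ i, Real.negMulLog (h.eigenvalues i) else 0

/-- The sites of the `b × b` box before `x` in the lexicographic order. -/
def seg {b : ℕ} (x : Fin b × Fin b) : Finset (Fin b × Fin b) :=
  Finset.univ.filter fun y => y.1 < x.1 ∨ (y.1 = x.1 ∧ y.2 < x.2)

/-- The conditional entropy `S(P ∪ {x}) - S(P)` of the vector `Ψ` at the site `x` of the `b × b` box, `P`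
being the set of the sites of the box before `x`. -/
def condEntropy {d L b : ℕ} [NeZero L] (Ψ : Conf d L → ℂ) (x : Fin b × Fin b) : ℝ :=
  vnE (ptr (insert x (seg x)) (rdm Ψ b)) - vnE (ptr (seg x) (rdm Ψ b))

/-- The reduced density matrices on `R` of the family `Ψ` form a Cauchy sequence. -/
def Conv {d : ℕ} (R : Finset (ℤ × ℤ)) (Ψ : ∀ L : ℕ, Conf d L → ℂ) : Prop :=
  ∀ δ : ℝ, 0 < δ → ∃ L₂ : ℕ, ∀ (L L' : ℕ) [NeZero L] [NeZero L'], L₂ ≤ L → L₂ ≤ L' →
    Close R (Ψ L) (Ψ L') δ

/-- For all large `L` the vector `Ψ L` is a translation invariant unit vector. -/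
def InvariantUnit {d : ℕ} (Ψ : ∀ L : ℕ, Conf d L → ℂ) : Prop :=
  ∃ L₁ : ℕ, ∀ (L : ℕ) [NeZero L], L₁ ≤ L → nrm (Ψ L) = 1 ∧ TransInv (Ψ L)

/-- A translation invariant tensor with bond dimension at most `g` reproduces the reduced density
matrices on `R` of `Ψ L` up to `ε` for all large `L`. -/
def Approximable {d : ℕ} (R : Finset (ℤ × ℤ)) (Ψ : ∀ L : ℕ, Conf d L → ℂ) (g ε : ℝ) : Prop :=
  ∃ (D : ℕ) (A : Tensor d D), (D : ℝ) ≤ g ∧ ∃ L₃ : ℕ, ∀ (L : ℕ) [NeZero L], L₃ ≤ L →
    nrm (peps A L) ≠ 0 ∧ Close R (Ψ L) (peps A L) ε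

theorem result (d : ℕ) (hd : 2 ≤ d) (R : Finset (ℤ × ℤ)) :
    -- (1) every translation invariant vector
    (∃ C : ℝ, 0 < C ∧ ∀ ε : ℝ, 0 < ε → ε ≤ 1 → ∀ (b : ℕ) (x : Fin b × Fin b),
      ∀ (L : ℕ) [NeZero L], C * (b / ε) ^ 3 ≤ L →
      ∀ Ψ : Conf d L → ℂ, nrm Ψ = 1 → TransInv Ψ → ∀ κ : ℝ, 0 ≤ κ → condEntropy Ψ x ≤ κ →
      ∃ (D : ℕ) (A : Tensor d D),
        (D : ℝ) ≤ Real.exp (C * (b : ℝ) ^ 26 * (κ / ε + Real.log (2 / ε))) ∧
        ∀ (L' : ℕ) [NeZero L'], C * (b / ε) ^ 12 ≤ L' →
          nrm (peps A L') ≠ 0 ∧ Close R Ψ (peps A L') ε) ∧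
    -- (2) exponentially small conditional entropies
    (∀ a c : ℝ, 0 ≤ a → 0 < c → ∃ C : ℝ, 0 < C ∧ ∀ Ψ : ∀ L : ℕ, Conf d L → ℂ,
      InvariantUnit Ψ → Conv R Ψ →
      (∀ b : ℕ, 1 ≤ b → ∃ x : Fin b × Fin b, ∃ L₂ : ℕ, ∀ (L : ℕ) [NeZero L], L₂ ≤ L →
        condEntropy (Ψ L) x ≤ a * Real.exp (-(c * b))) →
      ∀ ε : ℝ, 0 < ε → ε ≤ 1 → Approximable R Ψ (Real.exp (C * Real.log (2 / ε) ^ 27)) ε) ∧
    -- (3) vanishing conditional entropy at one site of one box
    (∀ (b : ℕ) (x : Fin b × Fin b), ∃ C : ℝ, 0 < C ∧ ∀ Ψ : ∀ L : ℕ, Conf d L → ℂ,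
      InvariantUnit Ψ → Conv R Ψ →
      (∀ η : ℝ, 0 < η → ∃ L₂ : ℕ, ∀ (L : ℕ) [NeZero L], L₂ ≤ L → condEntropy (Ψ L) x ≤ η) →
      ∀ ε : ℝ, 0 < ε → ε ≤ 1 → Approximable R Ψ ((2 / ε) ^ C) ε) ∧
    -- (4) power law
    (∀ a s : ℝ, 0 ≤ a → 0 < s → ∃ C : ℝ, 0 < C ∧ ∀ Ψ : ∀ L : ℕ, Conf d L → ℂ,
      InvariantUnit Ψ → Conv R Ψ →
      (∀ b : ℕ, 1 ≤ b → ∃ x : Fin b × Fin b, ∃ L₂ : ℕ, ∀ (L : ℕ) [NeZero L], L₂ ≤ L →
        condEntropy (Ψ L) x ≤ a * (b : ℝ) ^ (-s)) →
      ∀ ε : ℝ, 0 < ε → ε ≤ 1 →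
        Approximable R Ψ (Real.exp (C * ε ^ (-(26 / s)) * Real.log (2 / ε))) ε) := by
  have key : ∀ (L : ℕ) [NeZero L] (Ψ : Conf d L → ℂ) (b : ℕ),
      Pool.Agent.N658.TP.rdm Ψ b = rdm Ψ b := by
    intro L _ Ψ b
    ext σ τ
    simp only [Pool.Agent.N658.TP.rdm, rdm, Matrix.of_apply, Pool.Agent.Y738.PE.expec]
    refine Finset.sum_congr rfl fun s _ => ?_
    have hb : Pool.Agent.Y738.PE.box b s 0 = box b s 0 := rfl
    rw [hb]
    rw [Finset.sum_eq_single σ]
    · by_cases h : box b s 0 = τ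
      · simp only [h, and_self, if_true, mul_one]
        rfl
      · simp only [h, false_and, if_false, mul_zero, zero_mul]
    · intro τ' _ hτ'
      simp only [hτ', and_false, if_false, mul_zero, zero_mul]
    · intro h
      exact absurd (Finset.mem_univ _) h
  have key2 : ∀ (L : ℕ) [NeZero L] (Ψ : Conf d L → ℂ) (b : ℕ) (x : Fin b × Fin b),
      Pool.Agent.U753.MK.condE (Pool.Agent.N658.TP.rdm Ψ b) x = condEntropy Ψ x := by
    intro L _ Ψ b x
    rw [key L Ψ b]
    rfl
  refine ⟨?_, ?_, ?_, ?_⟩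
  · obtain ⟨C, hC, H⟩ := Pool.Agent.U753.MK.mk1 d hd R
    refine ⟨C, hC, ?_⟩
    intro ε hε hε1 b x L _ hL Ψ hΨ hT κ hκ hcond
    have hb : 1 ≤ b := by
      have := x.1.2
      omega
    rw [← key2] at hcond
    exact H ε hε hε1 b hb x L hL Ψ hΨ hT κ hκ hcond
  · intro a c ha hc
    obtain ⟨C, hC, H⟩ := Pool.Agent.U753.MK.famExp d hd R a c ha hc
    refine ⟨C, hC, ?_⟩
    intro Ψ hΨ hconv hcond ε hε hε1
    refine H Ψ hΨ hconv ?_ ε hε hε1
    intro b hb
    obtain ⟨x, L₂, hL₂⟩ := hcond b hb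
    exact ⟨x, L₂, fun L _ hL => by rw [key2]; exact hL₂ L hL⟩
  · intro b x
    obtain ⟨C, hC, H⟩ := Pool.Agent.U753.MK.famZero d hd R b x
    refine ⟨C, hC, ?_⟩
    intro Ψ hΨ hconv hcond ε hε hε1
    refine H Ψ hΨ hconv ?_ ε hε hε1
    intro η hη
    obtain ⟨L₂, hL₂⟩ := hcond η hη
    exact ⟨L₂, fun L _ hL => by rw [key2]; exact hL₂ L hL⟩
  · intro a s ha hs
    obtain ⟨C, hC, H⟩ := Pool.Agent.U753.MK.famPow d hd R a s ha hs
    refine ⟨C, hC, ?_⟩
    intro Ψ hΨ hconv hcond ε hε hε1
    refine H Ψ hΨ hconv ?_ ε hε hε1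
    intro b hb
    obtain ⟨x, L₂, hL₂⟩ := hcond b hb
    exact ⟨x, L₂, fun L _ hL => by rw [key2]; exact hL₂ L hL⟩

end Pool.Agent.Results.MP_0f69bf_mp.ConditionalEntropy
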