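import Pool.Agent.U753.MY.Fam
import Pool.Agent.U580.MX.GV
import Pool.Agent.U333.MX.GE
import Pool.Agent.U962.MX.VA
import Pool.Agent.U397.MX.BD
import Pool.Agent.U934.MY.TS
import Pool.Agent.U141.MY.MI2
import Pool.Agent.U129.MY.LG

/-!
# Local PEPS approximation and the entropy of locally similar states

Let `Ψ` be a translation invariant unit vector on the `L × L` torus and `ω` its reduced density matrix
on a `b × b` box. For a translation invariant state (density matrix) `ρ` on the `m × m` torus let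
`‖ρ_b - Ψ_b‖₁` (`avDist m ρ ω`) be the trace norm of the difference of its reduced density matrix on
a `b × b` box and `ω`.

(1) Duality. All translation invariant states `ρ` have entropy at most `m² (κ + J ‖ρ_b - Ψ_b‖₁)` if and
only if for some Hermitian `h` with `‖h‖ ≤ J` on the `b × b` box, `H` the sum of its translates,
`log Tr exp (-H) + m² Tr (ω h) ≤ κ m²`.

(2) In this case, if `m ≤ L` is even and at least `C b J / ε`, one translation invariant tensor of
bond dimension at most `exp (C b ^ 24 (J + κ / ε + log m))` reproduces the reduced density matrix of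
`Ψ` on the region `R` up to `ε`, on all tori of side at least `C m ^ 4`.

(3) Families. Suppose that for every `0 < κ ≤ 1` there is `b ≤ B (log (3 / κ)) ^ j` such that all
translation invariant states `ρ` of the tori of side `m ≥ B (3 / κ) ^ p` have entropy at most
`B m² (κ + (log (3 / κ)) ^ i ‖ρ_b - Ψ_b‖₁)`. Then `g (ε) = exp (C (log (3 / ε)) ^ (24 j + i))` is possible
in the open problem. For `j = 0`, `i = 1` this is polynomial in `1 / ε`: it is enough that the entropy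
density of the translation invariant states whose marginals on one fixed box are within `t` of those
of `Ψ` is at most `B t log (3 / t)`, as for a dilute gas of excitations.

Parts of the proof are by helper580, helper333, helper962, helper397, helper934, helper141, helper129
and the authors of the parts of `ConditionalEntropy`.
-/

set_option autoImplicit false

open scoped BigOperators ComplexConjugate Classical Matrix ComplexOrder
open scoped Matrix.Norms.L2Operator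

noncomputable section

namespace Pool.Agent.Results.MP_0f69bf_mp.LowEntropy

open Pool.Agent.TH235.PP (BoxOp TorOp)
open Pool.Agent.U753.MK (vnE)
open Pool.Agent.U753.MY (IsTI avDist relT)

/-- Sites of the `L × L` torus. -/
abbrev Site (L : ℕ) := ZMod L × ZMod L

/-- Configurations (basis states) of the torus with local dimension `d`; vectors are functions
`Conf d L → ℂ`. -/
abbrev Conf (d L : ℕ) := Site L → Fin d

/-- Configurations of a `q × q` box. -/
abbrev BConf (d q : ℕ) := Fin q × Fin q → Fin d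

/-- Squared norm of a vector. -/
def nrm {S : Type} [Fintype S] (f : S → ℂ) : ℝ := ∑ s, ‖f s‖ ^ 2

/-- The matrix `B` has operator norm at most `1`. -/
def Contr {S : Type} [Fintype S] (B : S → S → ℂ) : Prop :=
  ∀ f : S → ℂ, nrm (fun σ => ∑ τ, B σ τ * f τ) ≤ nrm f

/-- The restriction of `s` to the `q × q` box with corner `v`. -/
def box {d L : ℕ} (q : ℕ) (s : Conf d L) (v : Site L) : BConf d q :=
  fun p => s (v.1 + ((p.1 : ℕ) : ZMod L), v.2 + ((p.2 : ℕ) : ZMod L))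

/-- The configuration `s` with its content on the `q × q` box with corner `v` replaced by `τ`. -/
def put {d L q : ℕ} (s : Conf d L) (v : Site L) (τ : BConf d q) : Conf d L :=
  fun w => if h : (w.1 - v.1).val < q ∧ (w.2 - v.2).val < q then
    τ (⟨(w.1 - v.1).val, h.1⟩, ⟨(w.2 - v.2).val, h.2⟩) else s w

/-- The restriction of `s` to the translate by `v` of the region `R ⊂ ℤ²`. -/
def res {d L : ℕ} (R : Finset (ℤ × ℤ)) (s : Conf d L) (v : Site L) : R → Fin d :=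
  fun p => s (v.1 + ((p : ℤ × ℤ).1 : ZMod L), v.2 + ((p : ℤ × ℤ).2 : ZMod L))

/-- `⟨Ψ, B_v Ψ⟩`, the matrix `B` acting on the translate by `v` of the region `R`: the sum of
`conj (Ψ s) * B (s on v + R) (s' on v + R) * Ψ s'` over all pairs `s`, `s'` which agree off
`v + R`. -/
def expecR {d L : ℕ} [NeZero L] (R : Finset (ℤ × ℤ)) (Ψ : Conf d L → ℂ) (v : Site L)
    (B : (R → Fin d) → (R → Fin d) → ℂ) : ℂ :=
  ∑ s : Conf d L, ∑ s' : Conf d L,
    if (∀ w : Site L, (∀ p ∈ R, w ≠ (v.1 + (p.1 : ZMod L), v.2 + (p.2 : ZMod L))) → s w = s' w)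
    then conj (Ψ s) * B (res R s v) (res R s' v) * Ψ s' else 0

/-- The reduced density matrices on `R` of the normalised vectors `Ψ`, `Ψ'` (on two possibly
different tori, at any positions) have trace distance at most `ε`: the expectations of all
matrices of norm at most `1` differ by at most `ε`. -/
def Close {d L L' : ℕ} [NeZero L] [NeZero L'] (R : Finset (ℤ × ℤ)) (Ψ : Conf d L → ℂ)
    (Ψ' : Conf d L' → ℂ) (ε : ℝ) : Prop :=
  ∀ (u : Site L) (v : Site L') (B : (R → Fin d) → (R → Fin d) → ℂ), Contr B →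
    ‖expecR R Ψ u B / (nrm Ψ : ℂ) - expecR R Ψ' v B / (nrm Ψ' : ℂ)‖ ≤ ε

/-- A PEPS tensor with physical dimension `d` and bond dimension `D`; indices: physical, left,
right, down, up. -/
abbrev Tensor (d D : ℕ) := Fin d → Fin D → Fin D → Fin D → Fin D → ℂ

/-- The translation invariant PEPS vector of the tensor `A` on the `L × L` torus. -/
def peps {d D : ℕ} (A : Tensor d D) (L : ℕ) [NeZero L] : Conf d L → ℂ :=
  fun s => ∑ hor : Site L → Fin D, ∑ ver : Site L → Fin D,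
    ∏ v : Site L, A (s v) (hor (v.1 - 1, v.2)) (hor v) (ver (v.1, v.2 - 1)) (ver v)

/-- The vector `Ψ` is translation invariant up to scalars. -/
def TransInv {d L : ℕ} (Ψ : Conf d L → ℂ) : Prop :=
  ∀ a : Site L, ∃ c : ℂ, ∀ s : Conf d L, Ψ (fun w => s (w + a)) = c * Ψ s

/-- The reduced density matrix of the vector `Ψ` on the `b × b` box with corner `0`: its entry
`(σ, τ)` is `∑_s conj (Ψ s) Ψ (s with σ put on the box)`, the sum over the `s` that are `τ` on the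
box. -/
def rdm {d L : ℕ} [NeZero L] (Ψ : Conf d L → ℂ) (b : ℕ) : Matrix (BConf d b) (BConf d b) ℂ :=
  Matrix.of fun σ τ => ∑ s : Conf d L, if box b s 0 = τ then conj (Ψ s) * Ψ (put s 0 σ) else 0

/-- The reduced density matrices on `R` of the family `Ψ` form a Cauchy sequence. -/
def Conv {d : ℕ} (R : Finset (ℤ × ℤ)) (Ψ : ∀ L : ℕ, Conf d L → ℂ) : Prop :=
  ∀ δ : ℝ, 0 < δ → ∃ L₂ : ℕ, ∀ (L L' : ℕ) [NeZero L] [NeZero L'], L₂ ≤ L → L₂ ≤ L' →
    Close R (Ψ L) (Ψ L') δ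

/-- For all large `L` the vector `Ψ L` is a translation invariant unit vector. -/
def InvariantUnit {d : ℕ} (Ψ : ∀ L : ℕ, Conf d L → ℂ) : Prop :=
  ∃ L₁ : ℕ, ∀ (L : ℕ) [NeZero L], L₁ ≤ L → nrm (Ψ L) = 1 ∧ TransInv (Ψ L)

/-- A translation invariant tensor with bond dimension at most `g` reproduces the reduced density
matrices on `R` of `Ψ L` up to `ε` for all large `L`. -/
def Approximable {d : ℕ} (R : Finset (ℤ × ℤ)) (Ψ : ∀ L : ℕ, Conf d L → ℂ) (g ε : ℝ) : Prop :=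
  ∃ (D : ℕ) (A : Tensor d D), (D : ℝ) ≤ g ∧ ∃ L₃ : ℕ, ∀ (L : ℕ) [NeZero L], L₃ ≤ L →
    nrm (peps A L) ≠ 0 ∧ Close R (Ψ L) (peps A L) ε

/-- For every `κ` there is `b ≤ B (log (3 / κ)) ^ j` such that all translation invariant states `ρ` of
the tori of side `m ≥ B (3 / κ) ^ p` have entropy at most
`B m ^ 2 (κ + (log (3 / κ)) ^ i ‖ρ_b - Ψ_b‖₁)`, `ρ_b` and `Ψ_b` the reduced states of `ρ` and of `Ψ L`, `L`
large, on a box of side `b`. -/
def EntropyBound {d : ℕ} (Ψ : ∀ L : ℕ, Conf d L → ℂ) (j i p : ℕ) (B : ℝ) : Prop :=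
  ∀ κ : ℝ, 0 < κ → κ ≤ 1 → ∃ b : ℕ, 1 ≤ b ∧ (b : ℝ) ≤ B * Real.log (3 / κ) ^ j ∧
    ∀ (m : ℕ) [NeZero m], B * (3 / κ) ^ p ≤ m → ∃ L₂ : ℕ, ∀ (L : ℕ) [NeZero L], L₂ ≤ L →
      ∀ ρ : TorOp d m, ρ.PosSemidef → ρ.trace = 1 → IsTI ρ →
        vnE ρ ≤ B * (m : ℝ) ^ 2 *
          (κ + Real.log (3 / κ) ^ i * avDist m ρ (rdm (Ψ L) b))

theorem result :
    -- (1) duality
    (∀ (d b m : ℕ) [NeZero m], 0 < d → b ≤ m → ∀ ω : BoxOp d b, ω.PosSemidef → ω.trace = 1 →
      ∀ J κ : ℝ, 0 < J →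
      ((∃ h : BoxOp d b, h.IsHermitian ∧ ‖h‖ ≤ J ∧ relT m ω h ≤ κ * (m : ℝ) ^ 2) ↔
        ∀ ρ : TorOp d m, ρ.PosSemidef → ρ.trace = 1 → IsTI ρ →
          vnE ρ ≤ (m : ℝ) ^ 2 * (κ + J * avDist m ρ ω))) ∧
    -- (2) one scale
    (∀ d : ℕ, 2 ≤ d → ∀ R : Finset (ℤ × ℤ), ∃ C : ℝ, 0 < C ∧
      ∀ ε : ℝ, 0 < ε → ε ≤ 1 → ∀ b : ℕ, 1 ≤ b → ∀ (n L : ℕ) [NeZero L] [NeZero (2 * n)],
      2 * n ≤ L → ∀ J : ℝ, 1 ≤ J → C * b * J / ε ≤ ((2 * n : ℕ) : ℝ) →
      ∀ Ψ : Conf d L → ℂ, nrm Ψ = 1 → TransInv Ψ → ∀ κ : ℝ, 0 ≤ κ →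
      (∀ ρ : TorOp d (2 * n), ρ.PosSemidef → ρ.trace = 1 → IsTI ρ →
        vnE ρ ≤ ((2 * n : ℕ) : ℝ) ^ 2 * (κ + J * avDist (2 * n) ρ (rdm Ψ b))) →
      ∃ (D : ℕ) (A : Tensor d D),
        (D : ℝ) ≤ Real.exp (C * (b : ℝ) ^ 24 * (J + κ / ε + Real.log ((2 * n : ℕ) : ℝ))) ∧
        ∀ (L' : ℕ) [NeZero L'], C * ((2 * n : ℕ) : ℝ) ^ 4 ≤ L' →
          nrm (peps A L') ≠ 0 ∧ Close R Ψ (peps A L') ε) ∧
    -- (3) families
    ∀ d : ℕ, 2 ≤ d → ∀ (R : Finset (ℤ × ℤ)) (j i p : ℕ), 1 ≤ i → ∀ B : ℝ, 0 < B →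
      ∃ C : ℝ, 0 < C ∧ ∀ Ψ : ∀ L : ℕ, Conf d L → ℂ, InvariantUnit Ψ → Conv R Ψ →
      EntropyBound Ψ j i p B → ∀ ε : ℝ, 0 < ε → ε ≤ 1 →
        Approximable R Ψ (Real.exp (C * Real.log (3 / ε) ^ (24 * j + i))) ε := by
  have hGV := Pool.Agent.U580.MX.t_gv
  have hGE := Pool.Agent.U333.MX.t_ge
  have hVA := Pool.Agent.U962.MX.t_va
  have hBD := Pool.Agent.U397.MX.t_bd
  have hTS := Pool.Agent.U934.MY.t_ts
  have hMI := Pool.Agent.U141.MY.t_mi2
  have hLG := Pool.Agent.U129.MY.t_lg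
  have key : ∀ (d L : ℕ) [NeZero L] (Ψ : Conf d L → ℂ) (b : ℕ),
      Pool.Agent.N658.TP.rdm Ψ b = rdm Ψ b := by
    intro d L _ Ψ b
    ext σ τ
    simp only [Pool.Agent.N658.TP.rdm, rdm, Matrix.of_apply, Pool.Agent.Y738.PE.expec]
    refine Finset.sum_congr rfl fun s _ => ?_
    have hb : Pool.Agent.Y738.PE.box b s 0 = box b s 0 := rfl
    rw [hb]
    rw [Finset.sum_eq_single σ]
    · by_cases h : box b s 0 = τ
      · simp only [h, and_self, if_true, mul_one]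
        rfl
      · simp only [h, false_and, if_false, mul_zero, zero_mul]
    · intro τ' _ hτ'
      simp only [hτ', and_false, if_false, mul_zero, zero_mul]
    · intro h
      exact absurd (Finset.mem_univ _) h
  refine ⟨?_, ?_, ?_⟩
  · intro d b m _ hd hbm ω hω hω1 J κ hJ
    exact Pool.Agent.U753.MY.dual2 hGV hGE hVA hBD hMI hTS hd hbm ω hω hω1 J κ hJ
  · intro d hd R
    obtain ⟨C, hC, H⟩ := Pool.Agent.U753.MY.oneScale hGV hGE hVA hBD hMI hTS hLG d hd R
    refine ⟨C, hC, ?_⟩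
    intro ε hε hε1 b hb n L _ _ hnL J hJ hm Ψ hΨ hT κ hκ hρ
    rw [← key] at hρ
    exact H ε hε hε1 b hb n L hnL J hJ hm Ψ hΨ hT κ hκ hρ
  · intro d hd R j i p hi B hB
    obtain ⟨C, hC, H⟩ := Pool.Agent.U753.MY.famLow hGV hGE hVA hBD hMI hTS hLG d hd R j i p hi B hB
    refine ⟨C, hC, ?_⟩
    intro Ψ hΨ hconv hlow ε hε hε1
    refine H Ψ hΨ hconv ?_ ε hε hε1
    intro κ hκ hκ1
    obtain ⟨b, hb, hbl, hm⟩ := hlow κ hκ hκ1
    refine ⟨b, hb, hbl, fun m _ hmm => ?_⟩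
    obtain ⟨L₂, hL₂⟩ := hm m hmm
    exact ⟨L₂, fun L _ hL => by rw [key]; exact hL₂ L hL⟩

end Pool.Agent.Results.MP_0f69bf_mp.LowEntropy
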