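import Pool.Agent.U753.FE.Free

/-!
# Polynomial bond dimension from the low temperature free energy

Let `h` be a Hermitian interaction on `q × q` boxes with local dimension `d ≥ 2` (no assumption on
gaps, uniqueness or frustration), let `E_0(m)` be the smallest eigenvalue of the Hamiltonian `H_m` on
the `m × m` torus and let `R ⊂ ℤ²` be a finite region. Put `Z_m(β) = Tr exp (-β (H_m - E_0(m)))`.

(1) A finite size criterion. There is `C = C(h, R)` such that, if `Z_m(β) ≤ exp (κ m²)` for ONE even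
side `m ≥ C (1 + β) / ε`, then for every translation invariant ground state `Ψ` of every large torus
ONE translation invariant tensor of bond dimension at most `m ^ C exp (C (1 + β + κ / ε))` has nonzero
PEPS vectors on all tori of side at least `C m⁴` and reproduces there the reduced density matrix of
`Ψ` on `R` up to `ε` in trace norm.

(2) If `Z_m(β) ≤ exp (a e^(-cβ) m²)` for every `β ≥ 1` and all large `m` (specific heat exponentially
small at low temperature: a gap in the thermodynamic sense), then Q2 has a POSITIVE answer for every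
family of translation invariant ground states with convergent reduced density matrices on `R`: the
bond dimension `g(ε, R) = (2 / ε) ^ C` suffices.

(3) The same if for all large `m` and all `M` at most `m^(c (M + 1))` eigenvalues of `H_m` are below
`E_0(m) + M` (the hypothesis, in uniform form, under which the global approximation with bond
dimension `exp (O (log² L))` is known).

(4) If `Z_m(β) ≤ exp (a β^(-α) m²)` for every `β ≥ 1` and all large `m` (for instance `α = 2` for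
gapless systems with linear dispersion), then `g(ε, R) = exp (C ε^(-1/(1+α)))` suffices.

The result FreeEnergyPEPS has in (1) the bound `m ^ (C (1 + β + κ / ε))`, hence only the
quasi-polynomial bound `exp (C log² (2 / ε))` in (2) and (3), and an additional factor `log (2 / ε)`
in the exponent in (4): there the two exponentials `exp (-β H)` and `exp (-t K)` (`K` the sum of the
translates of an observable on `R`) are built one after the other from slices of bond dimension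
`m ^ C` of constant duration. Here the state is the SINGLE thermal state of the interaction
`β h + t B`, for which the cluster expansion has bond dimension `exp (C (β + t + log m))`, and its
`K`-energy is bounded by a Gibbs inequality for the weights `(1 - κ A) ^ (2 M)` (with the free energy
of `H` alone on the right hand side, by comparison of `exp (-β H)` with the thermal state in the
eigenbasis of `β H + t K`) and by an averaging argument over the columns of an approximation in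
relative Frobenius norm, for observables which do not commute with the Hamiltonian.
-/

set_option autoImplicit false

open scoped BigOperators ComplexConjugate Classical

noncomputable section

namespace Pool.Agent.Results.MP_0f69bf_mp.PolynomialBondDimension

/-- Sites of the `L × L` torus. -/
abbrev Site (L : ℕ) := ZMod L × ZMod L

/-- Configurations (basis states) of the torus with local dimension `d`; vectors are functions
`Conf d L → ℂ`. -/
abbrev Conf (d L : ℕ) := Site L → Fin d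

/-- Configurations of a `q × q` box. -/
abbrev BConf (d q : ℕ) := Fin q × Fin q → Fin d

/-- Squared norm of a vector. -/
def nrm {S : Type} [Fintype S] (f : S → ℂ) : ℝ := ∑ s, ‖f s‖ ^ 2

/-- The matrix `B` has operator norm at most `1`. -/
def Contr {S : Type} [Fintype S] (B : S → S → ℂ) : Prop :=
  ∀ f : S → ℂ, nrm (fun σ => ∑ τ, B σ τ * f τ) ≤ nrm f

/-- The restriction of `s` to the `q × q` box with corner `v`. -/
def box {d L : ℕ} (q : ℕ) (s : Conf d L) (v : Site L) : BConf d q :=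
  fun p => s (v.1 + ((p.1 : ℕ) : ZMod L), v.2 + ((p.2 : ℕ) : ZMod L))

/-- The configuration `s` with its content on the `q × q` box with corner `v` replaced by `τ`. -/
def put {d L q : ℕ} (s : Conf d L) (v : Site L) (τ : BConf d q) : Conf d L :=
  fun w => if h : (w.1 - v.1).val < q ∧ (w.2 - v.2).val < q then
    τ (⟨(w.1 - v.1).val, h.1⟩, ⟨(w.2 - v.2).val, h.2⟩) else s w

/-- The restriction of `s` to the translate by `v` of the region `R ⊂ ℤ²`. -/
def res {d L : ℕ} (R : Finset (ℤ × ℤ)) (s : Conf d L) (v : Site L) : R → Fin d :=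
  fun p => s (v.1 + ((p : ℤ × ℤ).1 : ZMod L), v.2 + ((p : ℤ × ℤ).2 : ZMod L))

/-- `⟨Ψ, B_v Ψ⟩`, the matrix `B` acting on the translate by `v` of the region `R`: the sum of
`conj (Ψ s) * B (s on v + R) (s' on v + R) * Ψ s'` over all pairs `s`, `s'` which agree off
`v + R`. -/
def expecR {d L : ℕ} [NeZero L] (R : Finset (ℤ × ℤ)) (Ψ : Conf d L → ℂ) (v : Site L)
    (B : (R → Fin d) → (R → Fin d) → ℂ) : ℂ :=
  ∑ s : Conf d L, ∑ s' : Conf d L,
    if (∀ w : Site L, (∀ p ∈ R, w ≠ (v.1 + (p.1 : ZMod L), v.2 + (p.2 : ZMod L))) → s w = s' w)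
    then conj (Ψ s) * B (res R s v) (res R s' v) * Ψ s' else 0

/-- The reduced density matrices on `R` of the normalised vectors `Ψ`, `Ψ'` (on two possibly
different tori, at any positions) have trace distance at most `ε`: the expectations of all
matrices of norm at most `1` differ by at most `ε`. -/
def Close {d L L' : ℕ} [NeZero L] [NeZero L'] (R : Finset (ℤ × ℤ)) (Ψ : Conf d L → ℂ)
    (Ψ' : Conf d L' → ℂ) (ε : ℝ) : Prop :=
  ∀ (u : Site L) (v : Site L') (B : (R → Fin d) → (R → Fin d) → ℂ), Contr B →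
    ‖expecR R Ψ u B / (nrm Ψ : ℂ) - expecR R Ψ' v B / (nrm Ψ' : ℂ)‖ ≤ ε

/-- A PEPS tensor with physical dimension `d` and bond dimension `D`; indices: physical, left,
right, down, up. -/
abbrev Tensor (d D : ℕ) := Fin d → Fin D → Fin D → Fin D → Fin D → ℂ

/-- The translation invariant PEPS vector of the tensor `A` on the `L × L` torus. -/
def peps {d D : ℕ} (A : Tensor d D) (L : ℕ) [NeZero L] : Conf d L → ℂ :=
  fun s => ∑ hor : Site L → Fin D, ∑ ver : Site L → Fin D,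
    ∏ v : Site L, A (s v) (hor (v.1 - 1, v.2)) (hor v) (ver (v.1, v.2 - 1)) (ver v)

/-- The vector `Ψ` is translation invariant up to scalars. -/
def TransInv {d L : ℕ} (Ψ : Conf d L → ℂ) : Prop :=
  ∀ a : Site L, ∃ c : ℂ, ∀ s : Conf d L, Ψ (fun w => s (w + a)) = c * Ψ s

/-- The Hamiltonian `H_L = ∑_v τ_v(h)` of an interaction `h` on `q × q` boxes. -/
def ham {d q : ℕ} (h : BConf d q → BConf d q → ℂ) (L : ℕ) [NeZero L] (Ψ : Conf d L → ℂ) :
    Conf d L → ℂ :=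
  fun s => ∑ v : Site L, ∑ τ : BConf d q, h (box q s v) τ * Ψ (put s v τ)

/-- The energy `⟨φ, H_L φ⟩`. -/
def en {d q : ℕ} (h : BConf d q → BConf d q → ℂ) (L : ℕ) [NeZero L] (φ : Conf d L → ℂ) : ℝ :=
  (∑ s, conj (φ s) * ham h L φ s).re

/-- `Ψ` is a normalised ground state of `H_L`: it minimises the energy. -/
def IsGround {d q : ℕ} (h : BConf d q → BConf d q → ℂ) (L : ℕ) [NeZero L] (Ψ : Conf d L → ℂ) :
    Prop :=
  nrm Ψ = 1 ∧ ∀ φ : Conf d L → ℂ, nrm φ = 1 → en h L Ψ ≤ en h L φ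

/-- The matrix of `H_L` in the basis of configurations. -/
def hamM {d q : ℕ} (h : BConf d q → BConf d q → ℂ) (L : ℕ) [NeZero L] :
    Matrix (Conf d L) (Conf d L) ℂ :=
  Matrix.of fun s t => ham h L (fun s' => if s' = t then 1 else 0) s

/-- The smallest eigenvalue `E_0(L)` of `H_L`. -/
def gs {d q : ℕ} (h : BConf d q → BConf d q → ℂ) (L : ℕ) [NeZero L] : ℝ :=
  if hH : (hamM h L).IsHermitian then ⨅ i, hH.eigenvalues i else 0

/-- The partition function `Tr exp (-β (H_L - E_0(L)))`, the sum over the eigenvalues of `H_L` with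
multiplicity. -/
def part {d q : ℕ} (h : BConf d q → BConf d q → ℂ) (L : ℕ) [NeZero L] (β : ℝ) : ℝ :=
  if hH : (hamM h L).IsHermitian then ∑ i, Real.exp (-(β * (hH.eigenvalues i - gs h L))) else 0

/-- The number of eigenvalues of `H_L` (with multiplicity) that are at most `E_0(L) + M`. -/
def cnt {d q : ℕ} (h : BConf d q → BConf d q → ℂ) (L : ℕ) [NeZero L] (M : ℕ) : ℕ :=
  if hH : (hamM h L).IsHermitian then
    (Finset.univ.filter fun i => hH.eigenvalues i ≤ gs h L + M).card else 0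

/-- The reduced density matrices on `R` of the family `Ψ` form a Cauchy sequence. -/
def Conv {d : ℕ} (R : Finset (ℤ × ℤ)) (Ψ : ∀ L : ℕ, Conf d L → ℂ) : Prop :=
  ∀ δ : ℝ, 0 < δ → ∃ L₂ : ℕ, ∀ (L L' : ℕ) [NeZero L] [NeZero L'], L₂ ≤ L → L₂ ≤ L' →
    Close R (Ψ L) (Ψ L') δ

theorem result (d : ℕ) (hd : 2 ≤ d) (q : ℕ) (hq : 0 < q) (h : BConf d q → BConf d q → ℂ)
    (hh : ∀ σ τ, h σ τ = conj (h τ σ)) (R : Finset (ℤ × ℤ)) :
    -- (1) the finite size criterion
    (∃ C : ℝ, 0 < C ∧ ∀ ε : ℝ, 0 < ε → ε ≤ 1 → ∀ β : ℝ, 0 ≤ β →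
      ∀ (n : ℕ) [NeZero (2 * n)], C * (1 + β) / ε ≤ ((2 * n : ℕ) : ℝ) →
      ∀ κ : ℝ, 0 ≤ κ → part h (2 * n) β ≤ Real.exp (κ * ((2 * n : ℕ) : ℝ) ^ 2) →
      ∃ L₀ : ℕ, ∀ (L : ℕ) [NeZero L], L₀ ≤ L → ∀ Ψ : Conf d L → ℂ,
        IsGround h L Ψ → TransInv Ψ →
        ∃ (D : ℕ) (A : Tensor d D),
          (D : ℝ) ≤ ((2 * n : ℕ) : ℝ) ^ C * Real.exp (C * (1 + β + κ / ε)) ∧
          ∀ (L' : ℕ) [NeZero L'], C * ((2 * n : ℕ) : ℝ) ^ 4 ≤ L' →
            nrm (peps A L') ≠ 0 ∧ Close R Ψ (peps A L') ε) ∧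
    -- (2) exponential law
    (∀ a c : ℝ, 0 ≤ a → 0 < c →
      (∀ β : ℝ, 1 ≤ β → ∃ m₀ : ℕ, ∀ (m : ℕ) [NeZero m], m₀ ≤ m →
        part h m β ≤ Real.exp (a * Real.exp (-(c * β)) * (m : ℝ) ^ 2)) →
      ∃ C : ℝ, 0 < C ∧ ∀ Ψ : ∀ L : ℕ, Conf d L → ℂ,
        (∃ L₁ : ℕ, ∀ (L : ℕ) [NeZero L], L₁ ≤ L → IsGround h L (Ψ L) ∧ TransInv (Ψ L)) →
        Conv R Ψ → ∀ ε : ℝ, 0 < ε → ε ≤ 1 → ∃ (D : ℕ) (A : Tensor d D),
          (D : ℝ) ≤ (2 / ε) ^ C ∧
          ∃ L₃ : ℕ, ∀ (L : ℕ) [NeZero L], L₃ ≤ L →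
            nrm (peps A L) ≠ 0 ∧ Close R (Ψ L) (peps A L) ε) ∧
    -- (3) few states of low energy
    (∀ c : ℝ, 0 ≤ c →
      (∃ m₀ : ℕ, ∀ (m : ℕ) [NeZero m], m₀ ≤ m → ∀ M : ℕ,
        (cnt h m M : ℝ) ≤ (m : ℝ) ^ (c * (M + 1))) →
      ∃ C : ℝ, 0 < C ∧ ∀ Ψ : ∀ L : ℕ, Conf d L → ℂ,
        (∃ L₁ : ℕ, ∀ (L : ℕ) [NeZero L], L₁ ≤ L → IsGround h L (Ψ L) ∧ TransInv (Ψ L)) →
        Conv R Ψ → ∀ ε : ℝ, 0 < ε → ε ≤ 1 → ∃ (D : ℕ) (A : Tensor d D),
          (D : ℝ) ≤ (2 / ε) ^ C ∧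
          ∃ L₃ : ℕ, ∀ (L : ℕ) [NeZero L], L₃ ≤ L →
            nrm (peps A L) ≠ 0 ∧ Close R (Ψ L) (peps A L) ε) ∧
    -- (4) power law
    (∀ a α : ℝ, 0 ≤ a → 0 < α →
      (∀ β : ℝ, 1 ≤ β → ∃ m₀ : ℕ, ∀ (m : ℕ) [NeZero m], m₀ ≤ m →
        part h m β ≤ Real.exp (a * β ^ (-α) * (m : ℝ) ^ 2)) →
      ∃ C : ℝ, 0 < C ∧ ∀ Ψ : ∀ L : ℕ, Conf d L → ℂ,
        (∃ L₁ : ℕ, ∀ (L : ℕ) [NeZero L], L₁ ≤ L → IsGround h L (Ψ L) ∧ TransInv (Ψ L)) →
        Conv R Ψ → ∀ ε : ℝ, 0 < ε → ε ≤ 1 → ∃ (D : ℕ) (A : Tensor d D),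
          (D : ℝ) ≤ Real.exp (C * ε ^ (-(1 / (1 + α)))) ∧
          ∃ L₃ : ℕ, ∀ (L : ℕ) [NeZero L], L₃ ≤ L →
            nrm (peps A L) ≠ 0 ∧ Close R (Ψ L) (peps A L) ε) := by
  obtain ⟨R', rfl⟩ : ∃ R' : ℕ, q = R' + 1 := ⟨q - 1, by omega⟩
  set h' : Pool.Agent.TH235.PP.BoxOp d (R' + 1) := Matrix.of h with hh'
  have hher : h'.IsHermitian := by
    ext σ τ
    rw [Matrix.conjTranspose_apply]
    exact (hh σ τ).symm
  have hd0 : 0 < d := by omega
  have hof := Pool.Agent.N658.TP.Sp.freeOf'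
  have hlog0 : ∀ ε : ℝ, 0 < ε → ε ≤ 1 → 0 < Real.log (2 / ε) := fun ε h0 h1 =>
    Real.log_pos (by rw [lt_div_iff₀ h0]; linarith)
  have hlog : ∀ ε : ℝ, 0 < ε → ε ≤ 1 → Real.log (2 / (ε / 2)) ≤ 2 * Real.log (2 / ε) := by
    intro ε h0 h1
    have h2 : 2 / (ε / 2) = 2 * (2 / ε) := by field_simp
    rw [h2, Real.log_mul (by norm_num) (by positivity)]
    have h3 : Real.log 2 ≤ Real.log (2 / ε) :=
      Real.log_le_log (by norm_num) (by rw [le_div_iff₀ h0]; linarith)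
    linarith
  have hpow : ∀ C ε : ℝ, 0 < ε → Real.exp (C * Real.log (2 / ε)) = (2 / ε) ^ C := by
    intro C ε h0
    rw [Real.rpow_def_of_pos (by positivity), mul_comm]
  -- passage to families
  have key : ∀ (g : ℝ → ℝ) (C : ℝ), 0 < C → (∀ ε : ℝ, 0 < ε → ε ≤ 1 →
      ∃ L₀ : ℕ, ∀ (L : ℕ) [NeZero L], L₀ ≤ L → ∀ Ψ : Conf d L → ℂ,
        Pool.Agent.Y738.PE.IsGround (fun x y : BConf d (R' + 1) => h' x y) L Ψ →
        Pool.Agent.Y738.PE.TransInv Ψ →
        ∃ (D : ℕ) (A : Tensor d D), (D : ℝ) ≤ g ε ∧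
          ∀ (L' : ℕ) [NeZero L'], C * (1 / ε) ^ 8 ≤ L' →
            Pool.Agent.Y738.PE.nrm (Pool.Agent.Y738.PE.pepsX A L') ≠ 0 ∧
              Pool.Agent.Y738.PE.Close R Ψ (Pool.Agent.Y738.PE.pepsX A L') ε) →
      ∀ Ψ : ∀ L : ℕ, Conf d L → ℂ,
        (∃ L₁ : ℕ, ∀ (L : ℕ) [NeZero L], L₁ ≤ L → IsGround h L (Ψ L) ∧ TransInv (Ψ L)) →
        Conv R Ψ → ∀ ε : ℝ, 0 < ε → ε ≤ 1 → ∃ (D : ℕ) (A : Tensor d D),
          (D : ℝ) ≤ g (ε / 2) ∧ ∃ L₃ : ℕ, ∀ (L : ℕ) [NeZero L], L₃ ≤ L →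
            nrm (peps A L) ≠ 0 ∧ Close R (Ψ L) (peps A L) ε := by
    intro g C hC hm Ψ hΨ hconv ε hε hε1
    obtain ⟨L₁, hL₁⟩ := hΨ
    obtain ⟨L₀, hL₀⟩ := hm (ε / 2) (by linarith) (by linarith)
    refine Pool.Agent.N658.TP.Sp.fam d R Ψ hconv (g (ε / 2)) ε hε ⟨max L₀ L₁, fun L _ hL => ?_⟩
    obtain ⟨D, A, hD, hA⟩ := hL₀ L ((le_max_left _ _).trans hL) (Ψ L)
      (hL₁ L ((le_max_right _ _).trans hL)).1 (hL₁ L ((le_max_right _ _).trans hL)).2
    refine ⟨D, A, hD, ⌈C * (1 / (ε / 2)) ^ 8⌉₊, fun L' _ hL' => hA L' ?_⟩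
    exact (Nat.le_ceil _).trans (by exact_mod_cast hL')
  refine ⟨?_, ?_, ?_, ?_⟩
  · obtain ⟨C, hC, H⟩ := Pool.Agent.U753.FE.free1G' d R' hd h' hher R
    refine ⟨max C (R' + 1), lt_max_of_lt_left hC, ?_⟩
    intro ε hε hε1 β hβ n _ hn κ hκ hp
    have hCm : C ≤ max C (R' + 1) := le_max_left _ _
    have h1 : C * (1 + β) / ε ≤ ((2 * n : ℕ) : ℝ) := by
      refine le_trans ?_ hn
      gcongr
    have h2 : R' + 1 ≤ 2 * n := by
      have h3 : ((R' + 1 : ℕ) : ℝ) ≤ ((2 * n : ℕ) : ℝ) := by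
        refine le_trans ?_ hn
        rw [le_div_iff₀ hε]
        have h4 : ((R' + 1 : ℕ) : ℝ) ≤ max C (R' + 1) := by
          push_cast
          exact le_max_right _ _
        have h5 : (0 : ℝ) ≤ ((R' + 1 : ℕ) : ℝ) := Nat.cast_nonneg _
        calc ((R' + 1 : ℕ) : ℝ) * ε ≤ ((R' + 1 : ℕ) : ℝ) * 1 :=
              mul_le_mul_of_nonneg_left hε1 h5
          _ ≤ max C (R' + 1) * (1 + β) := mul_le_mul h4 (by linarith) (by norm_num)
              (h5.trans h4)
      exact_mod_cast h3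
    have h3 : Pool.Agent.N658.TP.FreeLe h' (2 * n) β κ :=
      hof d R' hd0 h' hher (2 * n) h2 β κ hp
    obtain ⟨L₀, hL₀⟩ := H ε hε hε1 β hβ n h1 κ hκ h3
    refine ⟨L₀, fun L _ hL Ψ hΨ hT => ?_⟩
    obtain ⟨D, A, hD, hA⟩ := hL₀ L hL Ψ hΨ hT
    refine ⟨D, A, hD.trans ?_, fun L' _ hL' => hA L' ?_⟩
    · have hn1 : (1 : ℝ) ≤ ((2 * n : ℕ) : ℝ) := by
        have : 1 ≤ 2 * n := by omega
        exact_mod_cast this
      have h4 : 0 ≤ Real.log ((2 * n : ℕ) : ℝ) := Real.log_nonneg hn1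
      rw [Real.rpow_def_of_pos (by linarith), ← Real.exp_add]
      apply Real.exp_le_exp.2
      have h5 : C * (1 + β + κ / ε + Real.log ((2 * n : ℕ) : ℝ)) ≤
          max C (R' + 1) * (1 + β + κ / ε + Real.log ((2 * n : ℕ) : ℝ)) :=
        mul_le_mul_of_nonneg_right hCm (by positivity)
      refine h5.trans (le_of_eq ?_)
      ring
    · refine le_trans ?_ hL'
      gcongr
  · intro a c ha hc hp
    have hp' : ∀ β : ℝ, 1 ≤ β → ∃ m₀ : ℕ, ∀ (m : ℕ) [NeZero m], m₀ ≤ m →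
        Pool.Agent.N658.TP.FreeLe h' m β (a * Real.exp (-(c * β))) := by
      intro β hβ
      obtain ⟨m₀, hm₀⟩ := hp β hβ
      exact ⟨max m₀ (R' + 1), fun m _ hm => hof d R' hd0 h' hher m ((le_max_right _ _).trans hm) β _
        (hm₀ m ((le_max_left _ _).trans hm))⟩
    obtain ⟨C, hC, H⟩ := Pool.Agent.U753.FE.free3G' d R' hd h' hher R a c ha hc hp'
    refine ⟨2 * C, by linarith, fun Ψ hΨ hconv ε hε hε1 => ?_⟩
    obtain ⟨D, A, hD, hA⟩ := key (fun ε => Real.exp (C * Real.log (2 / ε)))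
      C hC H Ψ hΨ hconv ε hε hε1
    rw [← hpow _ ε hε]
    refine ⟨D, A, hD.trans (Real.exp_le_exp.2 ?_), hA⟩
    have h2 := mul_le_mul_of_nonneg_left (hlog ε hε hε1) hC.le
    linarith
  · intro c hc hp
    obtain ⟨C, hC, H⟩ := Pool.Agent.U753.FE.free4G' d R' hd h' hher R c hc hp
    refine ⟨2 * C, by linarith, fun Ψ hΨ hconv ε hε hε1 => ?_⟩
    obtain ⟨D, A, hD, hA⟩ := key (fun ε => Real.exp (C * Real.log (2 / ε)))
      C hC H Ψ hΨ hconv ε hε hε1
    rw [← hpow _ ε hε]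
    refine ⟨D, A, hD.trans (Real.exp_le_exp.2 ?_), hA⟩
    have h2 := mul_le_mul_of_nonneg_left (hlog ε hε hε1) hC.le
    linarith
  · intro a α ha hα hp
    have hp' : ∀ β : ℝ, 1 ≤ β → ∃ m₀ : ℕ, ∀ (m : ℕ) [NeZero m], m₀ ≤ m →
        Pool.Agent.N658.TP.FreeLe h' m β (a * β ^ (-α)) := by
      intro β hβ
      obtain ⟨m₀, hm₀⟩ := hp β hβ
      exact ⟨max m₀ (R' + 1), fun m _ hm => hof d R' hd0 h' hher m ((le_max_right _ _).trans hm) β _
        (hm₀ m ((le_max_left _ _).trans hm))⟩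
    obtain ⟨C, hC, H⟩ := Pool.Agent.U753.FE.free2G' d R' hd h' hher R a α ha hα hp'
    refine ⟨2 * C, by linarith, fun Ψ hΨ hconv ε hε hε1 => ?_⟩
    obtain ⟨D, A, hD, hA⟩ := key (fun ε => Real.exp (C * ε ^ (-(1 / (1 + α)))))
      C hC H Ψ hΨ hconv ε hε hε1
    refine ⟨D, A, hD.trans (Real.exp_le_exp.2 ?_), hA⟩
    have h1 : (ε / 2) ^ (-(1 / (1 + α))) ≤ 2 * ε ^ (-(1 / (1 + α))) := by
      rw [Real.div_rpow hε.le (by norm_num), Real.rpow_neg (by norm_num : (0 : ℝ) ≤ 2),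
        div_inv_eq_mul, mul_comm]
      refine mul_le_mul_of_nonneg_right ?_ (by positivity)
      calc (2 : ℝ) ^ (1 / (1 + α)) ≤ (2 : ℝ) ^ (1 : ℝ) :=
            Real.rpow_le_rpow_of_exponent_le (by norm_num) (by
              rw [div_le_one (by linarith)]; linarith)
        _ = 2 := Real.rpow_one 2
    have h2 := mul_le_mul_of_nonneg_left h1 hC.le
    linarith

end Pool.Agent.Results.MP_0f69bf_mp.PolynomialBondDimension
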